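import Mathlib

set_option autoImplicit false

namespace Pool.Agent.Q184.SG

open MeasureTheory Finset
open scoped ComplexConjugate

variable {m : ℕ} [NeZero m]

/-- The character `γ_n(t) = exp (2πi ∑ t_k n_k / m)` of `(ℤ/mℤ)^ℕ`. -/
noncomputable def chi (n : ℕ →₀ ZMod m) (t : ℕ → ZMod m) : ℂ :=
  ZMod.stdAddChar (n.sum fun k a => t k * a)

theorem chi_zero (t : ℕ → ZMod m) : chi 0 t = 1 := by
  simp [chi]

theorem chi_add (n n' : ℕ →₀ ZMod m) (t : ℕ → ZMod m) : chi (n + n') t = chi n t * chi n' t := by
  unfold chi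
  rw [Finsupp.sum_add_index' (by simp) (by intro k a b; ring), AddChar.map_add_eq_mul]

theorem chi_add_right (n : ℕ →₀ ZMod m) (t s : ℕ → ZMod m) :
    chi n (t + s) = chi n t * chi n s := by
  unfold chi
  rw [← AddChar.map_add_eq_mul, ← Finsupp.sum_add]
  congr 1
  apply Finset.sum_congr rfl
  intro k _
  simp only [Pi.add_apply]
  ring

theorem norm_chi (n : ℕ →₀ ZMod m) (t : ℕ → ZMod m) : ‖chi n t‖ = 1 := by
  unfold chi
  exact AddChar.norm_apply _ _

theorem continuous_chi (n : ℕ →₀ ZMod m) : Continuous (chi n) := by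
  unfold chi
  have h1 : Continuous (fun t : ℕ → ZMod m => n.sum fun k a => t k * a) := by
    unfold Finsupp.sum
    exact continuous_finset_sum _ fun k _ => (continuous_apply k).mul continuous_const
  exact continuous_of_discreteTopology.comp h1

theorem chi_neg (n : ℕ →₀ ZMod m) (t : ℕ → ZMod m) : chi (-n) t = conj (chi n t) := by
  have h1 : chi (-n) t * chi n t = 1 := by
    rw [← chi_add, neg_add_cancel, chi_zero]
  have h2 : conj (chi n t) * chi n t = 1 := by
    rw [mul_comm, Complex.mul_conj, Complex.normSq_eq_norm_sq, norm_chi]; simp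
  have h3 : chi n t ≠ 0 := by
    intro h
    have := norm_chi n t
    rw [h, norm_zero] at this
    norm_num at this
  exact mul_right_cancel₀ h3 (h1.trans h2.symm)

theorem chi_sum {ι : Type*} (A : Finset ι) (n : ι → (ℕ →₀ ZMod m)) (t : ℕ → ZMod m) :
    chi (∑ i ∈ A, n i) t = ∏ i ∈ A, chi (n i) t := by
  classical
  induction A using Finset.induction_on with
  | empty => simp [chi_zero]
  | insert i A hi ih => rw [Finset.sum_insert hi, Finset.prod_insert hi, chi_add, ih]

variable {μ : Measure (ℕ → ZMod m)} [μ.IsAddHaarMeasure] [IsProbabilityMeasure μ]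

theorem integral_chi (n : ℕ →₀ ZMod m) (hn : n ≠ 0) : ∫ t, chi n t ∂μ = 0 := by
  obtain ⟨k, hk⟩ : ∃ k, n k ≠ 0 := by
    by_contra h
    push_neg at h
    exact hn (Finsupp.ext h)
  set s : ℕ → ZMod m := Pi.single k 1 with hs
  have h1 : chi n s ≠ 1 := by
    unfold chi
    have h2 : (n.sum fun k a => s k * a) = n k := by
      unfold Finsupp.sum
      rw [Finset.sum_eq_single k]
      · simp [hs]
      · intro j _ hj
        simp [hs, Pi.single_eq_of_ne hj]
      · intro h
        simp [Finsupp.notMem_support_iff.mp h]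
    rw [h2]
    intro h3
    apply hk
    apply ZMod.injective_stdAddChar
    rw [h3]
    simp
  have h2 : ∫ t, chi n t ∂μ = (∫ t, chi n t ∂μ) * chi n s := by
    conv_lhs => rw [← integral_add_right_eq_self (μ := μ) (fun t => chi n t) s]
    rw [← integral_mul_const]
    congr 1
    ext t
    exact chi_add_right n t s
  have h3 : (∫ t, chi n t ∂μ) * (chi n s - 1) = 0 := by
    rw [mul_sub, ← h2]; ring
  rcases mul_eq_zero.mp h3 with h | h
  · exact h
  · exact absurd (sub_eq_zero.mp h) h1

theorem integral_chi_ite (n : ℕ →₀ ZMod m) [Decidable (n = 0)] :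
    ∫ t, chi n t ∂μ = if n = 0 then 1 else 0 := by
  split_ifs with h
  · subst h
    simp [chi_zero]
  · exact integral_chi n h

theorem integrable_of_cont {E : Type*} [NormedAddCommGroup E] (f : (ℕ → ZMod m) → E)
    (hf : Continuous f) : Integrable f μ :=
  hf.integrable_of_hasCompactSupport (HasCompactSupport.of_compactSpace f)

end Pool.Agent.Q184.SG
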