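import Pool.Agent.Q184.SG.Riesz
import Pool.Agent.H337R3.Sid2

set_option autoImplicit false
set_option linter.unusedSectionVars false

namespace Pool.Agent.Q184.SG

open MeasureTheory Finset

variable {m : ℕ} [NeZero m]

/-- the `ψ₂` norm -/
noncomputable def psi2 (μ : Measure (ℕ → ZMod m)) (f : (ℕ → ZMod m) → ℂ) : ℝ :=
  sInf {c : ℝ | 0 < c ∧ ∫ t, Real.exp (‖f t‖ ^ 2 / c ^ 2) ∂μ ≤ Real.exp 1}

/-- subgaussian sets of characters -/
def Subg (μ : Measure (ℕ → ZMod m)) (Λ : Set (ℕ →₀ ZMod m)) : Prop :=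
  ∃ C : ℝ, ∀ (A : Finset (ℕ →₀ ZMod m)) (a : (ℕ →₀ ZMod m) → ℂ), (A : Set (ℕ →₀ ZMod m)) ⊆ Λ →
    psi2 μ (fun t => ∑ n ∈ A, a n * chi n t) ≤ C * √(∑ n ∈ A, ‖a n‖ ^ 2)

variable {μ : Measure (ℕ → ZMod m)} [μ.IsAddHaarMeasure] [IsProbabilityMeasure μ]

theorem psi2_le (f : (ℕ → ZMod m) → ℂ) (c : ℝ) (hc : 0 < c)
    (h : ∫ t, Real.exp (‖f t‖ ^ 2 / c ^ 2) ∂μ ≤ Real.exp 1) : psi2 μ f ≤ c :=
  csInf_le ⟨0, fun _ hx => hx.1.le⟩ ⟨hc, h⟩

theorem subg_of_union (Λ : Set (ℕ →₀ ZMod m)) (k : ℕ) (Q : Fin k → Set (ℕ →₀ ZMod m))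
    (hQ : ∀ i, QInd (Q i)) (hΛ : Λ = ⋃ i, Q i) : Subg μ Λ := by
  classical
  set K : ℝ := (k : ℝ) + 1 with hK
  have hK0 : 0 < K := by positivity
  refine ⟨√8 * K, ?_⟩
  intro A a hA
  -- the index
  have hex : ∀ n : ℕ →₀ ZMod m, ∃ i : Fin (k + 1), n ∈ A → ∃ j : Fin k, n ∈ Q j ∧ i = j.castSucc := by
    intro n
    by_cases hn : n ∈ A
    · have := hA (Finset.mem_coe.mpr hn)
      rw [hΛ, Set.mem_iUnion] at this
      obtain ⟨j, hj⟩ := this
      exact ⟨j.castSucc, fun _ => ⟨j, hj, rfl⟩⟩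
    · exact ⟨0, fun h => absurd h hn⟩
  choose c hc using hex
  have hcl : ∀ i : Fin (k + 1), QInd ((A.filter (fun n => c n = i) : Finset (ℕ →₀ ZMod m)) :
      Set (ℕ →₀ ZMod m)) := by
    intro i B hB ξ hξ hs n hn
    have h1 : n ∈ A.filter (fun n => c n = i) := Finset.mem_coe.mp (hB (Finset.mem_coe.mpr hn))
    obtain ⟨h2, h3⟩ := Finset.mem_filter.mp h1
    obtain ⟨j, -, hji⟩ := hc n h2
    refine hQ j B ?_ ξ hξ hs n hn
    intro n' hn'
    have h1' : n' ∈ A.filter (fun n => c n = i) := Finset.mem_coe.mp (hB hn')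
    obtain ⟨h2', h3'⟩ := Finset.mem_filter.mp h1'
    obtain ⟨j', hj', hji'⟩ := hc n' h2'
    have : j' = j := by
      apply Fin.castSucc_injective
      rw [← hji', ← hji, h3', h3]
    rw [← this]
    exact hj'
  set S := √(∑ n ∈ A, ‖a n‖ ^ 2) with hS
  have hS0 : 0 ≤ S := Real.sqrt_nonneg _
  have main : ∀ σ : ℝ, S < σ → psi2 μ (fun t => ∑ n ∈ A, a n * chi n t) ≤ √8 * K * σ := by
    intro σ hσ
    have hσ0 : 0 < σ := lt_of_le_of_lt hS0 hσ
    have hsum : ∑ n ∈ A, ‖a n‖ ^ 2 ≤ σ ^ 2 := by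
      have : ∑ n ∈ A, ‖a n‖ ^ 2 = S ^ 2 := by
        rw [hS, Real.sq_sqrt (Finset.sum_nonneg fun _ _ => sq_nonneg _)]
      rw [this]
      exact pow_le_pow_left₀ hS0 hσ.le 2
    apply psi2_le _ _ (by positivity)
    let f : Fin (k + 1) → (ℕ → ZMod m) → ℂ := fun i t => ∑ n ∈ A.filter (fun n => c n = i), a n * chi n t
    have hf : ∀ t, ∑ n ∈ A, a n * chi n t = ∑ i, f i t := by
      intro t
      exact (Finset.sum_fiberwise A c (fun n => a n * chi n t)).symm
    have hfc : ∀ i, Continuous (f i) := fun i =>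
      continuous_finsetSum _ fun n _ => continuous_const.mul (continuous_chi n)
    have h8 : (√8 : ℝ) ^ 2 = 8 := Real.sq_sqrt (by norm_num)
    have hcard : ((Finset.univ : Finset (Fin (k + 1))).card : ℝ) = K := by
      rw [Finset.card_univ, Fintype.card_fin]; push_cast; rfl
    have hpt : ∀ t, Real.exp (‖∑ n ∈ A, a n * chi n t‖ ^ 2 / (√8 * K * σ) ^ 2) ≤
        ∑ i, (1 / K) * Real.exp (‖f i t‖ ^ 2 / (8 * σ ^ 2)) := by
      intro t
      rw [hf t]
      have h1 : ‖∑ i, f i t‖ ^ 2 ≤ K * ∑ i, ‖f i t‖ ^ 2 := by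
        calc ‖∑ i, f i t‖ ^ 2 ≤ (∑ i, ‖f i t‖) ^ 2 :=
              pow_le_pow_left₀ (norm_nonneg _) (norm_sum_le _ _) 2
          _ ≤ (Finset.univ : Finset (Fin (k + 1))).card * ∑ i, ‖f i t‖ ^ 2 :=
              sq_sum_le_card_mul_sum_sq
          _ = K * ∑ i, ‖f i t‖ ^ 2 := by rw [hcard]
      have h2 := convexOn_exp.map_sum_le (t := (Finset.univ : Finset (Fin (k + 1))))
        (w := fun _ => 1 / K) (p := fun i => ‖f i t‖ ^ 2 / (8 * σ ^ 2))
        (fun _ _ => by positivity) (by
          rw [Finset.sum_const, nsmul_eq_mul, hcard]; field_simp) (fun _ _ => Set.mem_univ _)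
      simp only [smul_eq_mul] at h2
      refine le_trans (Real.exp_le_exp.mpr ?_) h2
      rw [← Finset.mul_sum, ← Finset.sum_div]
      rw [mul_pow, mul_pow, h8, div_le_iff₀ (by positivity)]
      have e1 : 1 / K * ((∑ i, ‖f i t‖ ^ 2) / (8 * σ ^ 2)) * (8 * K ^ 2 * σ ^ 2) =
          K * ∑ i, ‖f i t‖ ^ 2 := by
        field_simp
      rw [e1]
      exact h1
    have hi : ∀ i, Integrable (fun t => Real.exp (‖f i t‖ ^ 2 / (8 * σ ^ 2))) μ := fun i =>
      integrable_of_cont _ (Real.continuous_exp.comp (((hfc i).norm.pow 2).div_const _))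
    calc ∫ t, Real.exp (‖∑ n ∈ A, a n * chi n t‖ ^ 2 / (√8 * K * σ) ^ 2) ∂μ
        ≤ ∫ t, ∑ i, (1 / K) * Real.exp (‖f i t‖ ^ 2 / (8 * σ ^ 2)) ∂μ := by
          apply integral_mono _ _ hpt
          · apply integrable_of_cont
            refine Real.continuous_exp.comp ((Continuous.pow (Continuous.norm ?_) 2).div_const _)
            exact continuous_finsetSum _ fun n _ => continuous_const.mul (continuous_chi n)
          · exact integrable_finset_sum _ fun i _ => (hi i).const_mul _
      _ = ∑ i, (1 / K) * ∫ t, Real.exp (‖f i t‖ ^ 2 / (8 * σ ^ 2)) ∂μ := by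
          rw [integral_finset_sum _ fun i _ => (hi i).const_mul _]
          simp_rw [integral_const_mul]
      _ ≤ ∑ _i : Fin (k + 1), (1 / K) * √2 := by
          apply Finset.sum_le_sum
          intro i _
          apply mul_le_mul_of_nonneg_left _ (by positivity)
          apply sq_exp_qi _ (hcl i) a σ hσ0
          exact (Finset.sum_le_sum_of_subset_of_nonneg (Finset.filter_subset _ _)
            (fun _ _ _ => sq_nonneg _)).trans hsum
      _ = √2 := by
          rw [Finset.sum_const, nsmul_eq_mul, hcard]; field_simp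
      _ ≤ Real.exp 1 := by
          have h1 : √2 ≤ 2 := by
            rw [Real.sqrt_le_left (by norm_num)]; norm_num
          have h2 := Real.add_one_le_exp (1 : ℝ)
          linarith
  apply le_of_forall_gt_imp_ge_of_dense
  intro b hb
  have h8 : (0 : ℝ) < √8 * K := by positivity
  have h1 : S < b / (√8 * K) := by
    rw [lt_div_iff₀ h8]; linarith
  have h2 := main _ h1
  have h3 : √8 * K * (b / (√8 * K)) = b := by field_simp
  rwa [h3] at h2

open Pool.Agent.H337R3.Sid in
theorem small_of_subg (Λ : Set (ℕ →₀ ZMod m)) (h0 : (0 : ℕ →₀ ZMod m) ∉ Λ) (h : Subg μ Λ) :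
    ∃ K : ℕ, Small K Λ := by
  classical
  obtain ⟨C, hC⟩ := h
  refine ⟨⌈C ^ 2 * (Real.log 2 + 1)⌉₊, ?_⟩
  intro X hX
  set M := AddSubgroup.closure (X : Set (ℕ →₀ ZMod m)) with hM
  have hMfin : Finite M := closure_finite m (NeZero.pos m) X (fun x _ => by
    ext k; simp)
  let _ := Fintype.ofFinite M
  set N := Nat.card M with hN
  have hNpos : 0 < N := Nat.card_pos
  rcases X.eq_empty_or_nonempty with hXe | hXn
  · subst hXe
    simp only [Finset.card_empty, pow_zero]
    exact Nat.one_le_pow _ _ hNpos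
  have hN2 : 2 ≤ N := by
    obtain ⟨x, hx⟩ := hXn
    have hx0 : x ≠ 0 := by
      rintro rfl
      exact h0 (hX hx)
    have : Nontrivial M := ⟨⟨⟨x, AddSubgroup.subset_closure hx⟩, 0, fun h => hx0 (by
      have := congrArg Subtype.val h
      simpa using this)⟩⟩
    exact Finite.one_lt_card
  have hXc : (0 : ℝ) < X.card := by exact_mod_cast Finset.card_pos.mpr hXn
  set L : ℝ := 1 + Real.log N with hL
  have hlogN : Real.log 2 ≤ Real.log N := Real.log_le_log (by norm_num) (by exact_mod_cast hN2)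
  have hlog2 : 0 < Real.log 2 := Real.log_pos (by norm_num)
  have hL0 : 0 < L := by linarith
  -- the lower bound for the psi2 norm
  have hlow : (X.card : ℝ) / √L ≤ psi2 μ (fun t => ∑ n ∈ X, (1 : ℂ) * chi n t) := by
    apply le_csInf
    · refine ⟨X.card, hXc, ?_⟩
      calc ∫ t, Real.exp (‖∑ n ∈ X, (1 : ℂ) * chi n t‖ ^ 2 / (X.card : ℝ) ^ 2) ∂μ
          ≤ ∫ _t, Real.exp 1 ∂μ := by
            apply integral_mono _ (integrable_const _)
            · intro t
              apply Real.exp_le_exp.mpr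
              rw [div_le_one (by positivity)]
              apply pow_le_pow_left₀ (norm_nonneg _)
              calc ‖∑ n ∈ X, (1 : ℂ) * chi n t‖ ≤ ∑ n ∈ X, ‖(1 : ℂ) * chi n t‖ := norm_sum_le _ _
                _ = X.card := by simp [norm_chi]
            · apply integrable_of_cont
              refine Real.continuous_exp.comp ((Continuous.pow (Continuous.norm ?_) 2).div_const _)
              exact continuous_finsetSum _ fun n _ => continuous_const.mul (continuous_chi n)
        _ = Real.exp 1 := by simp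
    · rintro c ⟨hc0, hc⟩
      have hpt : ∀ t, Real.exp ((X.card : ℝ) ^ 2 / c ^ 2) * ((∑ x : M, chi (x : ℕ →₀ ZMod m) t).re / N) ≤
          Real.exp (‖∑ n ∈ X, (1 : ℂ) * chi n t‖ ^ 2 / c ^ 2) := by
        intro t
        let ψ : AddChar M ℂ :=
          { toFun := fun x => chi (x : ℕ →₀ ZMod m) t
            map_zero_eq_one' := by simp [chi_zero]
            map_add_eq_mul' := by intro x y; simp [chi_add] }
        have h1 : ∑ x : M, chi (x : ℕ →₀ ZMod m) t = if ψ = 0 then (Fintype.card M : ℂ) else 0 :=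
          AddChar.sum_eq_ite ψ
        rw [h1]
        split_ifs with h
        · have h2 : ∀ n ∈ X, chi n t = 1 := by
            intro n hn
            have := DFunLike.congr_fun h (⟨n, AddSubgroup.subset_closure hn⟩ : M)
            exact this
          have h3 : ∑ n ∈ X, (1 : ℂ) * chi n t = X.card := by
            rw [Finset.sum_congr rfl (fun n hn => by rw [h2 n hn])]
            simp
          rw [h3, Complex.norm_natCast]
          have h4 : ((Fintype.card M : ℂ)).re / N = 1 := by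
            rw [Complex.natCast_re, hN, Nat.card_eq_fintype_card]
            apply div_self
            have : 0 < Fintype.card M := Fintype.card_pos
            positivity
          rw [h4, mul_one]
        · simp only [Complex.zero_re, zero_div, mul_zero]
          exact (Real.exp_pos _).le
      have hint : ∫ t, (∑ x : M, chi (x : ℕ →₀ ZMod m) t).re ∂μ = 1 := by
        have hcont : Continuous fun t => ∑ x : M, chi (x : ℕ →₀ ZMod m) t :=
          continuous_finsetSum _ fun x _ => continuous_chi _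
        have h1 : (∫ t, ∑ x : M, chi (x : ℕ →₀ ZMod m) t ∂μ) = 1 := by
          rw [integral_finset_sum _ fun x _ => integrable_of_cont _ (continuous_chi _)]
          simp_rw [integral_chi_ite]
          rw [Finset.sum_eq_single (0 : M)]
          · simp
          · intro x _ hx
            rw [if_neg]
            intro h
            exact hx (Subtype.ext h)
          · intro h; exact absurd (Finset.mem_univ _) h
        have h2 := integral_re (μ := μ) (integrable_of_cont (μ := μ) _ hcont)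
        have h3 : ∫ t, (∑ x : M, chi (x : ℕ →₀ ZMod m) t).re ∂μ =
            (∫ t, ∑ x : M, chi (x : ℕ →₀ ZMod m) t ∂μ).re := h2
        rw [h3, h1]
        simp
      have h5 : Real.exp ((X.card : ℝ) ^ 2 / c ^ 2) * (1 / N) ≤ Real.exp 1 := by
        calc Real.exp ((X.card : ℝ) ^ 2 / c ^ 2) * (1 / N) =
            ∫ t, Real.exp ((X.card : ℝ) ^ 2 / c ^ 2) * ((∑ x : M, chi (x : ℕ →₀ ZMod m) t).re / N) ∂μ := by
              rw [integral_const_mul, integral_div, hint]
          _ ≤ _ := by
              apply integral_mono _ _ hpt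
              · apply integrable_of_cont
                refine continuous_const.mul ((Complex.continuous_re.comp ?_).div_const _)
                exact continuous_finsetSum _ fun x _ => continuous_chi _
              · apply integrable_of_cont
                refine Real.continuous_exp.comp ((Continuous.pow (Continuous.norm ?_) 2).div_const _)
                exact continuous_finsetSum _ fun n _ => continuous_const.mul (continuous_chi n)
          _ ≤ Real.exp 1 := hc
      have hNr : (0 : ℝ) < N := by exact_mod_cast hNpos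
      have h6 : Real.exp ((X.card : ℝ) ^ 2 / c ^ 2) ≤ Real.exp L := by
        rw [hL, Real.exp_add, Real.exp_log hNr]
        rw [mul_one_div, div_le_iff₀ hNr] at h5
        exact h5
      have h7 := Real.exp_le_exp.mp h6
      rw [div_le_iff₀ (by positivity)] at h7
      rw [div_le_iff₀ (Real.sqrt_pos.mpr hL0)]
      apply abs_le_of_sq_le_sq' _ (by positivity) |>.2
      rw [mul_pow, Real.sq_sqrt hL0.le]
      linarith
  have hup := hC X (fun _ => 1) hX
  have h1 : √(∑ n ∈ X, ‖(1 : ℂ)‖ ^ 2) = √X.card := by simp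
  rw [h1] at hup
  have h2 : (X.card : ℝ) / √L ≤ C * √X.card := hlow.trans hup
  rw [div_le_iff₀ (Real.sqrt_pos.mpr hL0)] at h2
  have h3 : (X.card : ℝ) ^ 2 ≤ (C * √X.card * √L) ^ 2 := pow_le_pow_left₀ hXc.le h2 2
  rw [mul_pow, mul_pow, Real.sq_sqrt hXc.le, Real.sq_sqrt hL0.le] at h3
  have h4 : (X.card : ℝ) ≤ C ^ 2 * L := by
    have : (X.card : ℝ) * X.card ≤ (C ^ 2 * L) * X.card := by nlinarith
    exact le_of_mul_le_mul_right this hXc
  -- conclusion
  have h5 : (X.card : ℝ) * Real.log 2 ≤ (⌈C ^ 2 * (Real.log 2 + 1)⌉₊ : ℝ) * Real.log N := by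
    calc (X.card : ℝ) * Real.log 2 ≤ C ^ 2 * L * Real.log 2 :=
          mul_le_mul_of_nonneg_right h4 hlog2.le
      _ = C ^ 2 * (Real.log 2 + Real.log 2 * Real.log N) := by rw [hL]; ring
      _ ≤ C ^ 2 * (Real.log N + Real.log 2 * Real.log N) := by
          apply mul_le_mul_of_nonneg_left _ (sq_nonneg _)
          linarith
      _ = C ^ 2 * (Real.log 2 + 1) * Real.log N := by ring
      _ ≤ _ := by
          apply mul_le_mul_of_nonneg_right (Nat.le_ceil _)
          linarith
  have hNr : (0 : ℝ) < N := by exact_mod_cast hNpos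
  have h6 : ((2 : ℝ) ^ X.card) ≤ (N : ℝ) ^ ⌈C ^ 2 * (Real.log 2 + 1)⌉₊ := by
    rw [← Real.log_le_log_iff (by positivity) (by positivity), Real.log_pow, Real.log_pow]
    exact h5
  exact_mod_cast h6

end Pool.Agent.Q184.SG
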