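import Pool.Agent.Q184.SG.Base

set_option autoImplicit false
set_option linter.unusedSectionVars false

namespace Pool.Agent.Q184.SG

open MeasureTheory Finset
open scoped ComplexConjugate

/-- convexity of the exponential function -/
theorem exp_le_cosh (b x : ℝ) (hb : 0 ≤ b) (hx : |x| ≤ b) :
    Real.exp x ≤ Real.cosh b + Real.sinh b / b * x := by
  rcases hb.eq_or_lt with h | h
  · subst h
    have : x = 0 := abs_nonpos_iff.mp hx
    subst this
    simp
  · obtain ⟨h1, h2⟩ := abs_le.mp hx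
    have q1 : 0 ≤ (b + x) / (2 * b) := by apply div_nonneg <;> linarith
    have q2 : 0 ≤ (b - x) / (2 * b) := by apply div_nonneg <;> linarith
    have q3 : (b + x) / (2 * b) + (b - x) / (2 * b) = 1 := by field_simp; ring
    have hc := convexOn_exp.2 (Set.mem_univ b) (Set.mem_univ (-b)) q1 q2 q3
    simp only [smul_eq_mul] at hc
    have e1 : (b + x) / (2 * b) * b + (b - x) / (2 * b) * -b = x := by field_simp; ring
    rw [e1] at hc
    refine hc.trans (le_of_eq ?_)
    rw [Real.cosh_eq, Real.sinh_eq]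
    field_simp
    ring

variable {m : ℕ} [NeZero m]

/-- quasi-independence -/
def QInd (Λ : Set (ℕ →₀ ZMod m)) : Prop :=
  ∀ A : Finset (ℕ →₀ ZMod m), (A : Set (ℕ →₀ ZMod m)) ⊆ Λ → ∀ ξ : (ℕ →₀ ZMod m) → ℤ,
    (∀ n ∈ A, ξ n = -1 ∨ ξ n = 0 ∨ ξ n = 1) → ∑ n ∈ A, ξ n • n = 0 → ∀ n ∈ A, ξ n = 0

theorem chi_zsmul_one (n : ℕ →₀ ZMod m) (t : ℕ → ZMod m) : chi ((1 : ℤ) • n) t = chi n t := by
  rw [one_smul]

variable {μ : Measure (ℕ → ZMod m)} [μ.IsAddHaarMeasure] [IsProbabilityMeasure μ]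

/-- Riesz products over quasi-independent sets have integral the product of the means. -/
theorem integral_riesz (A : Finset (ℕ →₀ ZMod m)) (hA : QInd (A : Set (ℕ →₀ ZMod m)))
    (α β : (ℕ →₀ ZMod m) → ℝ) (z : (ℕ →₀ ZMod m) → ℂ) :
    ∫ t, ∏ n ∈ A, (α n + β n * (z n * chi n t).re) ∂μ = ∏ n ∈ A, α n := by
  classical
  -- complexify
  let T : Finset ℤ := {-1, 0, 1}
  let co : (ℕ →₀ ZMod m) → ℤ → ℂ := fun n j =>
    if j = 0 then (α n : ℂ) else if j = 1 then β n * z n / 2 else β n * conj (z n) / 2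
  have h1 : ∀ t, ((∏ n ∈ A, (α n + β n * (z n * chi n t).re) : ℝ) : ℂ) =
      ∑ p ∈ Fintype.piFinset (fun _ : A => T), (∏ i : A, co i (p i)) * chi (∑ i : A, p i • (i : ℕ →₀ ZMod m)) t := by
    intro t
    push_cast
    rw [← Finset.prod_attach]
    have h2 : ∀ i : A, ((α i : ℂ) + β i * (((z i * chi (i : ℕ →₀ ZMod m) t).re : ℝ) : ℂ)) =
        ∑ j ∈ T, co i j * chi (j • (i : ℕ →₀ ZMod m)) t := by
      intro i
      have h3 : ∑ j ∈ T, co i j * chi (j • (i : ℕ →₀ ZMod m)) t =
          co i (-1) * chi ((-1 : ℤ) • (i : ℕ →₀ ZMod m)) t + (co i 0 * chi ((0 : ℤ) • (i : ℕ →₀ ZMod m)) t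
            + co i 1 * chi ((1 : ℤ) • (i : ℕ →₀ ZMod m)) t) := by
        rw [Finset.sum_insert (by decide), Finset.sum_insert (by decide), Finset.sum_singleton]
      rw [h3, zero_smul, one_smul, neg_smul, one_smul, chi_zero, chi_neg]
      have c1 : co i (-1) = β i * conj (z i) / 2 := by simp [co]
      have c2 : co i 0 = α i := by simp [co]
      have c3 : co i 1 = β i * z i / 2 := by simp [co]
      rw [c1, c2, c3, Complex.re_eq_add_conj, map_mul]
      ring
    have h4 : (∏ i ∈ A.attach, ((α i : ℂ) + β i * (((z i * chi (i : ℕ →₀ ZMod m) t).re : ℝ) : ℂ))) =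
        ∏ i : A, ∑ j ∈ T, co i j * chi (j • (i : ℕ →₀ ZMod m)) t :=
      Finset.prod_congr rfl fun i _ => h2 i
    rw [h4, Finset.prod_univ_sum]
    apply Finset.sum_congr rfl
    intro p _
    rw [Finset.prod_mul_distrib, chi_sum]
  have h5 : ((∫ t, ∏ n ∈ A, (α n + β n * (z n * chi n t).re) ∂μ : ℝ) : ℂ) = ((∏ n ∈ A, α n : ℝ) : ℂ) := by
    rw [← integral_complex_ofReal]
    simp_rw [h1]
    rw [integral_finset_sum (f := fun (p : A → ℤ) (x : ℕ → ZMod m) =>
      (∏ i : A, co i (p i)) * chi (∑ i : A, p i • (i : ℕ →₀ ZMod m)) x) _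
      (fun p _ => integrable_of_cont _ (continuous_const.mul (continuous_chi _)))]
    simp_rw [integral_const_mul, integral_chi_ite]
    rw [Finset.sum_eq_single (fun _ => (0 : ℤ))]
    · have : ∑ i : A, ((fun _ => (0 : ℤ)) i : ℤ) • (i : ℕ →₀ ZMod m) = 0 := by simp
      rw [if_pos this, mul_one]
      have : ∏ i : A, co i ((fun _ => (0 : ℤ)) i) = ∏ n ∈ A, (α n : ℂ) := by
        simp only [co, if_true]
        exact Finset.prod_coe_sort A (fun n => (α n : ℂ))
      rw [this]
      push_cast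
      rfl
    · intro p hp hp0
      rw [Fintype.mem_piFinset] at hp
      rw [if_neg, mul_zero]
      intro hsum
      apply hp0
      funext i
      have h6 := hA A (le_refl _) (fun n => if h : n ∈ A then p ⟨n, h⟩ else 0) (by
        intro n hn
        have := hp ⟨n, hn⟩
        simp only [T, Finset.mem_insert, Finset.mem_singleton] at this
        simp only [dif_pos hn]
        exact this) (by
        rw [← hsum, ← Finset.sum_attach]
        apply Finset.sum_congr rfl
        intro i _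
        simp) i i.2
      simpa using h6
    · intro h
      exfalso
      apply h
      rw [Fintype.mem_piFinset]
      intro i
      simp [T]
  exact_mod_cast h5

/-- the moment generating function -/
theorem mgf_le (A : Finset (ℕ →₀ ZMod m)) (hA : QInd (A : Set (ℕ →₀ ZMod m)))
    (z : (ℕ →₀ ZMod m) → ℂ) :
    ∫ t, Real.exp (∑ n ∈ A, z n * chi n t).re ∂μ ≤ Real.exp ((∑ n ∈ A, ‖z n‖ ^ 2) / 2) := by
  have h1 : ∀ t, Real.exp (∑ n ∈ A, z n * chi n t).re ≤
      ∏ n ∈ A, (Real.cosh ‖z n‖ + Real.sinh ‖z n‖ / ‖z n‖ * (z n * chi n t).re) := by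
    intro t
    rw [Complex.re_sum, Real.exp_sum]
    apply Finset.prod_le_prod
    · intro n _; positivity
    · intro n _
      apply exp_le_cosh _ _ (norm_nonneg _)
      refine (Complex.abs_re_le_norm _).trans ?_
      rw [norm_mul, norm_chi, mul_one]
  have hcont : Continuous fun t => (∑ n ∈ A, z n * chi n t) :=
    continuous_finsetSum _ fun n _ => continuous_const.mul (continuous_chi n)
  calc ∫ t, Real.exp (∑ n ∈ A, z n * chi n t).re ∂μ
      ≤ ∫ t, ∏ n ∈ A, (Real.cosh ‖z n‖ + Real.sinh ‖z n‖ / ‖z n‖ * (z n * chi n t).re) ∂μ := by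
        apply integral_mono _ _ h1
        · exact integrable_of_cont _ (Real.continuous_exp.comp (Complex.continuous_re.comp hcont))
        · exact integrable_of_cont _ (continuous_finset_prod _ fun n _ =>
            continuous_const.add (continuous_const.mul (Complex.continuous_re.comp
              (continuous_const.mul (continuous_chi n)))))
    _ = ∏ n ∈ A, Real.cosh ‖z n‖ := integral_riesz A hA _ _ _
    _ ≤ ∏ n ∈ A, Real.exp (‖z n‖ ^ 2 / 2) := by
        apply Finset.prod_le_prod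
        · intro n _; positivity
        · intro n _; exact Real.cosh_le_exp_half_sq _
    _ = _ := by rw [← Real.exp_sum, Finset.sum_div]

/-- Square-exponential moments from the moment generating function. -/
theorem sq_exp_le {Ω : Type*} [TopologicalSpace Ω] [CompactSpace Ω] [MeasurableSpace Ω]
    [BorelSpace Ω] (ν : Measure Ω) [IsProbabilityMeasure ν] (X : Ω → ℝ) (hX : Continuous X)
    (σ : ℝ) (hσ : 0 < σ) (h : ∀ s : ℝ, ∫ t, Real.exp (s * X t) ∂ν ≤ Real.exp (s ^ 2 * σ ^ 2 / 2)) :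
    ∫ t, Real.exp (X t ^ 2 / (4 * σ ^ 2)) ∂ν ≤ √2 := by
  set v : NNReal := ⟨1 / (2 * σ ^ 2), by positivity⟩ with hv
  have hvr : (v : ℝ) = 1 / (2 * σ ^ 2) := rfl
  have hv0 : v ≠ 0 := by
    intro h
    have : (v : ℝ) = 0 := by rw [h]; rfl
    rw [hvr] at this
    have h2 : 0 < 1 / (2 * σ ^ 2) := by positivity
    linarith
  set γ := ProbabilityTheory.gaussianReal 0 v with hγ
  have h1 : ∀ x : ℝ, Real.exp (x ^ 2 / (4 * σ ^ 2)) = ∫ g, Real.exp (x * g) ∂γ := by
    intro x
    have := ProbabilityTheory.mgf_gaussianReal (p := γ) (X := id) (μ := 0) (v := v)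
      (by rw [Measure.map_id]) x
    rw [ProbabilityTheory.mgf] at this
    simp only [id] at this
    rw [this, hvr]
    congr 1
    field_simp
    ring
  simp_rw [h1]
  -- bound for X
  obtain ⟨B, hB⟩ : ∃ B : ℝ, ∀ t, |X t| ≤ B := by
    obtain ⟨B, hB⟩ := isCompact_univ.exists_bound_of_continuousOn hX.continuousOn
    exact ⟨B, fun t => hB t (Set.mem_univ t)⟩
  have hint : Integrable (Function.uncurry fun (t : Ω) (g : ℝ) => Real.exp (X t * g)) (ν.prod γ) := by
    have hdom : Integrable (fun p : Ω × ℝ => Real.exp (B * p.2) + Real.exp (-B * p.2)) (ν.prod γ) := by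
      have e1 : Integrable (fun g : ℝ => Real.exp (B * g) + Real.exp (-B * g)) γ :=
        (ProbabilityTheory.integrable_exp_mul_gaussianReal B).add
          (ProbabilityTheory.integrable_exp_mul_gaussianReal (-B))
      exact e1.comp_snd ν
    refine hdom.mono' ?_ ?_
    · apply Measurable.aestronglyMeasurable
      apply Real.measurable_exp.comp
      exact (hX.measurable.comp measurable_fst).mul measurable_snd
    · refine Filter.Eventually.of_forall ?_
      rintro ⟨t, g⟩
      simp only [Function.uncurry]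
      rw [Real.norm_eq_abs, abs_of_pos (Real.exp_pos _)]
      have hb := hB t
      have : X t * g ≤ B * |g| := by
        calc X t * g ≤ |X t * g| := le_abs_self _
          _ = |X t| * |g| := abs_mul _ _
          _ ≤ B * |g| := mul_le_mul_of_nonneg_right hb (abs_nonneg _)
      have p1 := Real.exp_pos (B * g)
      have p2 := Real.exp_pos (-B * g)
      rcases abs_cases g with ⟨h, _⟩ | ⟨h, _⟩
      · rw [h] at this
        have := Real.exp_le_exp.mpr this
        linarith
      · rw [h] at this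
        have := Real.exp_le_exp.mpr this
        rw [show B * -g = -B * g by ring] at this
        linarith
  rw [integral_integral_swap hint]
  have h2 : ∀ g : ℝ, ∫ t, Real.exp (X t * g) ∂ν ≤ Real.exp (g ^ 2 * σ ^ 2 / 2) := by
    intro g
    have := h g
    simp_rw [mul_comm g] at this
    exact this
  have hgauss : ∀ g : ℝ, ProbabilityTheory.gaussianPDFReal 0 v g * Real.exp (g ^ 2 * σ ^ 2 / 2) =
      (σ / √Real.pi) * Real.exp (-(σ ^ 2 / 2) * g ^ 2) := by
    intro g
    rw [ProbabilityTheory.gaussianPDFReal, hvr]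
    have e1 : √(2 * Real.pi * (1 / (2 * σ ^ 2))) = √Real.pi / σ := by
      rw [show 2 * Real.pi * (1 / (2 * σ ^ 2)) = Real.pi / σ ^ 2 by field_simp]
      rw [Real.sqrt_div' _ (by positivity), Real.sqrt_sq hσ.le]
    rw [e1, inv_div, mul_assoc, ← Real.exp_add]
    congr 2
    field_simp
    ring
  have hi2 : Integrable (fun g : ℝ => Real.exp (g ^ 2 * σ ^ 2 / 2)) γ := by
    rw [hγ, ProbabilityTheory.gaussianReal_of_var_ne_zero _ hv0]
    rw [integrable_withDensity_iff_integrable_smul' (ProbabilityTheory.measurable_gaussianPDF 0 v)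
      (Filter.Eventually.of_forall fun _ => ProbabilityTheory.gaussianPDF_lt_top)]
    have e2 : (fun g : ℝ => (ProbabilityTheory.gaussianPDF 0 v g).toReal • Real.exp (g ^ 2 * σ ^ 2 / 2)) =
        fun g => (σ / √Real.pi) * Real.exp (-(σ ^ 2 / 2) * g ^ 2) := by
      funext g
      rw [ProbabilityTheory.toReal_gaussianPDF, smul_eq_mul, hgauss]
    rw [e2]
    exact (integrable_exp_neg_mul_sq (by positivity)).const_mul _
  calc ∫ g, ∫ t, Real.exp (X t * g) ∂ν ∂γ ≤ ∫ g, Real.exp (g ^ 2 * σ ^ 2 / 2) ∂γ := by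
        apply integral_mono _ hi2 h2
        exact hint.integral_prod_right
    _ = ∫ g, (σ / √Real.pi) * Real.exp (-(σ ^ 2 / 2) * g ^ 2) := by
        rw [hγ, ProbabilityTheory.integral_gaussianReal_eq_integral_smul hv0]
        congr 1
        funext g
        rw [smul_eq_mul, hgauss]
    _ = √2 := by
        rw [integral_const_mul, integral_gaussian]
        rw [show Real.pi / (σ ^ 2 / 2) = 2 * Real.pi / σ ^ 2 by field_simp]
        rw [Real.sqrt_div' _ (by positivity), Real.sqrt_sq hσ.le, Real.sqrt_mul (by norm_num)]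
        have : √Real.pi ≠ 0 := by positivity
        field_simp

/-- the square exponential bound over a quasi-independent set -/
theorem sq_exp_qi (A : Finset (ℕ →₀ ZMod m)) (hA : QInd (A : Set (ℕ →₀ ZMod m)))
    (a : (ℕ →₀ ZMod m) → ℂ) (σ : ℝ) (hσ : 0 < σ) (ha : ∑ n ∈ A, ‖a n‖ ^ 2 ≤ σ ^ 2) :
    ∫ t, Real.exp (‖∑ n ∈ A, a n * chi n t‖ ^ 2 / (8 * σ ^ 2)) ∂μ ≤ √2 := by
  have hcont : ∀ a : (ℕ →₀ ZMod m) → ℂ, Continuous fun t => (∑ n ∈ A, a n * chi n t) := fun a =>
    continuous_finsetSum _ fun n _ => continuous_const.mul (continuous_chi n)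
  have key : ∀ w : ℂ, ‖w‖ = 1 →
      ∫ t, Real.exp ((w * ∑ n ∈ A, a n * chi n t).re ^ 2 / (4 * σ ^ 2)) ∂μ ≤ √2 := by
    intro w hw
    apply sq_exp_le μ (fun t => (w * ∑ n ∈ A, a n * chi n t).re)
      (Complex.continuous_re.comp (continuous_const.mul (hcont a))) σ hσ
    intro s
    have h1 := mgf_le (μ := μ) A hA (fun n => (s : ℂ) * w * a n)
    have h2 : ∀ t, (∑ n ∈ A, ((s : ℂ) * w * a n) * chi n t).re =
        s * (w * ∑ n ∈ A, a n * chi n t).re := by
      intro t
      rw [← Complex.re_ofReal_mul, Finset.mul_sum, Finset.mul_sum]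
      congr 1
      apply Finset.sum_congr rfl
      intro n _
      ring
    simp_rw [h2] at h1
    refine h1.trans (Real.exp_le_exp.mpr ?_)
    have h3 : ∑ n ∈ A, ‖(s : ℂ) * w * a n‖ ^ 2 = s ^ 2 * ∑ n ∈ A, ‖a n‖ ^ 2 := by
      rw [Finset.mul_sum]
      apply Finset.sum_congr rfl
      intro n _
      rw [norm_mul, norm_mul, hw, mul_one, mul_pow, Complex.norm_real, Real.norm_eq_abs, sq_abs]
    rw [h3]
    have := mul_le_mul_of_nonneg_left ha (sq_nonneg s)
    linarith
  have k1 := key 1 (by simp)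
  have k2 := key (-Complex.I) (by simp)
  have hpt : ∀ t, Real.exp (‖∑ n ∈ A, a n * chi n t‖ ^ 2 / (8 * σ ^ 2)) ≤
      (Real.exp ((1 * ∑ n ∈ A, a n * chi n t).re ^ 2 / (4 * σ ^ 2)) +
       Real.exp ((-Complex.I * ∑ n ∈ A, a n * chi n t).re ^ 2 / (4 * σ ^ 2))) / 2 := by
    intro t
    set f := ∑ n ∈ A, a n * chi n t
    have e1 : (-Complex.I * f).re = f.im := by simp
    rw [e1, one_mul]
    have e2 : ‖f‖ ^ 2 = f.re ^ 2 + f.im ^ 2 := by
      rw [← Complex.normSq_eq_norm_sq, Complex.normSq_apply]; ring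
    rw [e2]
    have q1 : (0 : ℝ) ≤ 1 / 2 := by norm_num
    have q3 : (1 / 2 : ℝ) + 1 / 2 = 1 := by norm_num
    have hc := convexOn_exp.2 (Set.mem_univ (f.re ^ 2 / (4 * σ ^ 2)))
      (Set.mem_univ (f.im ^ 2 / (4 * σ ^ 2))) q1 q1 q3
    simp only [smul_eq_mul] at hc
    have e3 : (1 / 2 : ℝ) * (f.re ^ 2 / (4 * σ ^ 2)) + 1 / 2 * (f.im ^ 2 / (4 * σ ^ 2)) =
        (f.re ^ 2 + f.im ^ 2) / (8 * σ ^ 2) := by
      field_simp; ring
    rw [e3] at hc
    linarith
  have hi : ∀ w : ℂ, Integrable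
      (fun t => Real.exp ((w * ∑ n ∈ A, a n * chi n t).re ^ 2 / (4 * σ ^ 2))) μ := by
    intro w
    apply integrable_of_cont
    exact Real.continuous_exp.comp (((Complex.continuous_re.comp
      (continuous_const.mul (hcont a))).pow 2).div_const _)
  calc _ ≤ ∫ t, (Real.exp ((1 * ∑ n ∈ A, a n * chi n t).re ^ 2 / (4 * σ ^ 2)) +
       Real.exp ((-Complex.I * ∑ n ∈ A, a n * chi n t).re ^ 2 / (4 * σ ^ 2))) / 2 ∂μ := by
        apply integral_mono _ (((hi 1).add (hi (-Complex.I))).div_const 2) hpt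
        apply integrable_of_cont
        exact Real.continuous_exp.comp (((hcont a).norm.pow 2).div_const _)
    _ ≤ √2 := by
        rw [integral_div, integral_add (hi 1) (hi (-Complex.I))]
        linarith

end Pool.Agent.Q184.SG
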